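import Mathlib

/-!
# Irreducible coset spaces: definitions
-/

namespace Q16.IrrDefs

/-- `G ⧸ H` is an irreducible coset space: `H` is closed, `H ≠ G`, and the only closed subgroups
`K` with `H ≤ K` are `H` and `G`. -/
def IsIrreducibleCosetSpace (G : Type) [Group G] [TopologicalSpace G] (H : Subgroup G) : Prop :=
  IsClosed (H : Set G) ∧ H ≠ ⊤ ∧ ∀ K : Subgroup G, IsClosed (K : Set G) → H ≤ K → K = H ∨ K = ⊤

/-- `G ⧸ H` is faithful: the intersection of the conjugates of `H` is trivial. -/
def IsFaithfulCosetSpace (G : Type) [Group G] (H : Subgroup G) : Prop := H.normalCore = ⊥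

/-- The minimal nontrivial closed normal subgroups of `G`. -/
def minimalClosedNormal (G : Type) [Group G] [TopologicalSpace G] : Set (Subgroup G) :=
  {M | M.Normal ∧ IsClosed (M : Set G) ∧ M ≠ ⊥ ∧
    ∀ N : Subgroup G, N.Normal → IsClosed (N : Set G) → N ≤ M → N = ⊥ ∨ N = M}

end Q16.IrrDefs
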