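import Pool.Agent.Q16.Irr.Group

/-!
# Elements of the group and its subgroups
-/

open Topology Filter Set Equiv

noncomputable section

namespace Q16.Irr

theorem I_infinite (J : Finset I) (a : ℚ_[2]) : ∃ N : ℕ, (N, a) ∉ J := by
  by_contra hn
  push Not at hn
  have hinj : Function.Injective (fun N : ℕ => ((N, a) : I)) := fun x y h => (Prod.ext_iff.1 h).1
  have h1 : (Set.range (fun N : ℕ => ((N, a) : I))).Infinite := Set.infinite_range_of_injective hinj
  exact h1 (J.finite_toSet.subset (by rintro _ ⟨N, rfl⟩; exact hn N))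

/-- The basic shear: `x i ↦ x i + w i + s * x (j i)` for `i ∈ W`. -/
def F (W : Finset I) (w : X) (s : ℚ) (j : I → I) (x : X) : X := fun i =>
  open Classical in if i ∈ W then x i + w i + s * x (j i) else x i

theorem F_mem {W : Finset I} {w : X} {s : ℚ} {j : I → I} {x : X} {i : I} (h : i ∈ W) :
    F W w s j x i = x i + w i + s * x (j i) := by
  simp only [F]; rw [if_pos h]

theorem F_not_mem {W : Finset I} {w : X} {s : ℚ} {j : I → I} {x : X} {i : I} (h : i ∉ W) :
    F W w s j x i = x i := by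
  simp only [F]; rw [if_neg h]

theorem exists_pow_ge (a : ℝ) : ∃ r : ℕ, a ≤ 2 ^ r ∧ (1 : ℝ) ≤ 2 ^ r := by
  obtain ⟨r, hr⟩ := pow_unbounded_of_one_lt a (by norm_num : (1 : ℝ) < 2)
  exact ⟨r, hr.le, one_le_pow₀ (by norm_num)⟩

theorem PG_F (W : Finset I) (w : X) (s : ℚ) (j : I → I) : PG (F W w s j) where
  add x y := by
    funext i
    simp only [Pi.add_apply]
    by_cases h : i ∈ W
    · rw [F_mem h, F_mem h, F_mem h, F_mem h]
      simp only [Pi.add_apply, Pi.zero_apply]
      ring
    · rw [F_not_mem h, F_not_mem h, F_not_mem h, F_not_mem h]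
      simp
  fin := by
    classical
    refine ⟨W ∪ W.image j, ?_, ?_⟩
    · intro x i hi
      rw [Finset.notMem_union] at hi
      exact F_not_mem hi.1
    · intro x y h i hi
      by_cases hW : i ∈ W
      · rw [F_mem hW, F_mem hW, h i hi,
          h (j i) (Finset.mem_union_right _ (Finset.mem_image_of_mem j hW))]
      · rw [F_not_mem hW, F_not_mem hW, h i hi]
  bdd := by
    obtain ⟨r, hr, hr1⟩ := exists_pow_ge ‖(s : ℚ_[2])‖
    refine ⟨r, fun x y C hC i => ?_⟩
    have h0 := C_nonneg hC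
    have h1 : ‖x i - y i‖ ≤ 2 ^ r * C := (hC i).trans (by nlinarith)
    by_cases h : i ∈ W
    · rw [F_mem h, F_mem h]
      have h2 : x i + w i + s * x (j i) - (y i + w i + s * y (j i)) =
          (x i - y i) + s * (x (j i) - y (j i)) := by ring
      rw [h2]
      apply norm_add_le' h1
      rw [norm_mul]
      exact mul_le_mul hr (hC _) (norm_nonneg _) (by positivity)
    · rw [F_not_mem h, F_not_mem h]
      exact h1
  rat a x y h i := by
    by_cases hi : i ∈ W
    · obtain ⟨q, hq⟩ := h i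
      obtain ⟨q', hq'⟩ := h (j i)
      refine ⟨q + s * q', ?_⟩
      rw [F_mem hi, F_mem hi]
      push_cast
      linear_combination hq + (s : ℚ_[2]) * hq'
    · rw [F_not_mem hi, F_not_mem hi]
      exact h i

/-- The shear as a permutation. -/
def shear (W : Finset I) (w : X) (s : ℚ) (j : I → I) (h : s = 0 ∨ ∀ i ∈ W, j i ∉ W) : Perm X where
  toFun := F W w s j
  invFun := F W (-w) (-s) j
  left_inv x := by
    funext i
    by_cases hi : i ∈ W
    · rw [F_mem hi, F_mem hi]
      rcases h with rfl | h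
      · simp
      · rw [F_not_mem (h i hi)]
        simp only [Pi.neg_apply]
        push_cast
        ring
    · rw [F_not_mem hi, F_not_mem hi]
  right_inv x := by
    funext i
    by_cases hi : i ∈ W
    · rw [F_mem hi, F_mem hi]
      rcases h with rfl | h
      · simp
      · rw [F_not_mem (h i hi)]
        simp only [Pi.neg_apply]
        push_cast
        ring
    · rw [F_not_mem hi, F_not_mem hi]

/-- The shear as an element of `G`. -/
def sh (W : Finset I) (w : X) (s : ℚ) (j : I → I) (h : s = 0 ∨ ∀ i ∈ W, j i ∉ W) : G :=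
  ⟨shear W w s j h, PG_F W w s j, PG_F W (-w) (-s) j⟩

theorem sh_coe (W : Finset I) (w : X) (s : ℚ) (j : I → I) (h : s = 0 ∨ ∀ i ∈ W, j i ∉ W) (x : X) :
    (sh W w s j h).1 x = F W w s j x := rfl

theorem G_ext {g h : G} (e : ∀ x, g.1 x = h.1 x) : g = h := Subtype.ext (Equiv.ext e)

theorem G_mul (g h : G) (x : X) : (g * h).1 x = g.1 (h.1 x) := rfl
theorem G_inv (g : G) (x : X) : (g⁻¹).1 x = g.1.symm x := rfl
theorem G_one (x : X) : (1 : G).1 x = x := rfl

/-- Translation by a finitely supported function. -/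
theorem exists_tr (m : X) (hm : FS m) : ∃ g : G, ∀ x, g.1 x = x + m := by
  obtain ⟨J, hJ⟩ := hm
  refine ⟨sh J m 0 id (Or.inl rfl), fun x => ?_⟩
  funext i
  rw [sh_coe, Pi.add_apply]
  by_cases hi : i ∈ J
  · rw [F_mem hi]; simp
  · rw [F_not_mem hi, hJ i hi, add_zero]

def tr (m : X) (hm : FS m) : G := (exists_tr m hm).choose

theorem tr_apply (m : X) (hm : FS m) (x : X) : (tr m hm).1 x = x + m :=
  (exists_tr m hm).choose_spec x

theorem tr_mul {m n : X} (hm : FS m) (hn : FS n) : tr m hm * tr n hn = tr (m + n) (hm.add hn) := by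
  apply G_ext
  intro x
  rw [G_mul, tr_apply, tr_apply, tr_apply]
  abel

theorem tr_zero : tr 0 FS.zero = 1 := by
  apply G_ext
  intro x
  rw [tr_apply, add_zero, G_one]

theorem tr_inv {m : X} (hm : FS m) : (tr m hm)⁻¹ = tr (-m) hm.neg := by
  rw [inv_eq_iff_mul_eq_one, tr_mul]
  apply G_ext
  intro x
  rw [tr_apply, G_one]
  abel

theorem tr_congr {m n : X} (hm : FS m) (hn : FS n) (h : m = n) : tr m hm = tr n hn := by
  subst h; rfl

theorem tr_injective {m n : X} {hm : FS m} {hn : FS n} (h : tr m hm = tr n hn) : m = n := by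
  have := congrArg (fun g : G => g.1 0) h
  simp only [tr_apply, zero_add] at this
  exact this

/-- An element acting near the centre like a translation is a translation. -/
theorem eq_tr (g : G) (h : ∀ e, FS e → g.1 (c + e) = g.1 c + e) :
    g = tr (g.1 c - c) (FS_sub (PG_of g) c) := by
  classical
  apply G_ext
  intro x
  rw [tr_apply]
  funext i
  obtain ⟨J, hJ1, hJ2⟩ := (PG_of g).fin
  by_cases hi : i ∈ J
  · let e : X := fun k => if k ∈ J then x k - c k else 0
    have he : FS e := ⟨J, fun k hk => if_neg hk⟩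
    have h1 : g.1 x i = g.1 (c + e) i := by
      apply hJ2 _ _ _ i hi
      intro k hk
      simp only [Pi.add_apply, e, if_pos hk]
      ring
    rw [h1, h e he]
    simp only [Pi.add_apply, Pi.sub_apply, e, if_pos hi]
    ring
  · rw [hJ1 x i hi, Pi.add_apply, Pi.sub_apply, hJ1 c i hi, sub_self, add_zero]

instance : T2Space G := by
  apply basis.t2Space
  intro g hg
  have hc : g.1 c = c := (hg (⟨∅, Set.finite_empty, fun _ h => absurd h (Set.notMem_empty _)⟩, 0)).1.fixc
  have h1 := eq_tr g (fun e he => by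
    rw [hc]
    exact (hg (⟨{e}, Set.finite_singleton e, fun x hx => by
      rw [mem_singleton_iff.1 hx]; exact he⟩, 0)).1.fixE e rfl)
  rw [h1, ← tr_zero]
  apply tr_congr
  rw [hc, sub_self]

/-- The stabilizer of `0`. -/
def H1 : Subgroup G where
  carrier := {g | g.1 0 = 0}
  one_mem' := rfl
  mul_mem' := by
    intro a b ha hb
    have ha' : a.1 0 = 0 := ha
    have hb' : b.1 0 = 0 := hb
    change (a * b).1 0 = 0
    rw [G_mul, hb', ha']
  inv_mem' := by
    intro a ha
    have ha' : a.1 0 = 0 := ha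
    change a.1.symm 0 = 0
    rw [← ha', Equiv.symm_apply_apply, ha']

theorem mem_H1 {g : G} : g ∈ H1 ↔ g.1 0 = 0 := Iff.rfl

theorem exists_half_pow_lt {δ : ℝ} (hδ : 0 < δ) (r : ℕ) : ∃ n : ℕ, 2 ^ r * (1 / 2 : ℝ) ^ n < δ := by
  have h2 : (0 : ℝ) < 2 ^ r := by positivity
  obtain ⟨n, hn⟩ := exists_pow_lt_of_lt_one (div_pos hδ h2) (by norm_num : (1 / 2 : ℝ) < 1)
  refine ⟨n, ?_⟩
  rw [lt_div_iff₀ h2] at hn
  linarith

theorem isClosed_H1 : IsClosed (H1 : Set G) := by
  apply basis.isClosed_iff.2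
  intro g hg
  have hg0 : g.1 0 ≠ 0 := hg
  obtain ⟨i, hi⟩ := Function.ne_iff.1 hg0
  obtain ⟨r, hr⟩ := (PG_of g).bdd
  have hδ : 0 < ‖g.1 0 i‖ := norm_pos_iff.2 hi
  obtain ⟨n, hn⟩ := exists_half_pow_lt hδ r
  refine ⟨(⟨∅, Set.finite_empty, fun _ h => absurd h (Set.notMem_empty _)⟩, n), ?_⟩
  intro v hv hgv
  have h0 : g.1 (v.1 0) = 0 := hgv
  have h1 : ∀ i, ‖v.1 0 i - (0 : X) i‖ ≤ (1 / 2 : ℝ) ^ n := fun i => by
    rw [Pi.zero_apply, sub_zero]; exact hv.1.zero i
  have h2 := hr (v.1 0) 0 _ h1 i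
  rw [h0, Pi.zero_apply, zero_sub, norm_neg] at h2
  linarith

/-- A single nonzero coordinate. -/
def sg (i : I) (a : ℚ_[2]) : X := open Classical in Pi.single i a

theorem sg_same (i : I) (a : ℚ_[2]) : sg i a i = a := by
  classical
  simp [sg]

theorem sg_ne {i k : I} (a : ℚ_[2]) (h : k ≠ i) : sg i a k = 0 := by
  classical
  simp [sg, h]

theorem FS_sg (i : I) (a : ℚ_[2]) : FS (sg i a) :=
  ⟨{i}, fun k hk => sg_ne a (by simpa using hk)⟩

/-- Transvections. -/
def T (i j : I) (s : ℚ) (h : j ≠ i) : G := sh {i} 0 s (fun _ => j) (Or.inr (by simpa using h))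

theorem T_apply (i j : I) (s : ℚ) (h : j ≠ i) (x : X) : (T i j s h).1 x = x + sg i (s * x j) := by
  funext k
  rw [T, sh_coe, Pi.add_apply]
  by_cases hk : k = i
  · subst hk
    rw [F_mem (by simp), sg_same, Pi.zero_apply]
    ring
  · rw [F_not_mem (by simpa using hk), sg_ne _ hk, add_zero]

theorem T_mem_H1 (i j : I) (s : ℚ) (h : j ≠ i) : T i j s h ∈ H1 := by
  rw [mem_H1, T_apply]
  funext k
  by_cases hk : k = i
  · subst hk
    rw [Pi.add_apply, sg_same]; simp
  · rw [Pi.add_apply, sg_ne _ hk]; simp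

theorem T_conj (i j : I) (s : ℚ) (h : j ≠ i) (d : X) (hd : FS d) :
    T i j s h * tr d hd * (T i j s h)⁻¹ = tr (d + sg i (s * d j)) (hd.add (FS_sg _ _)) := by
  rw [mul_inv_eq_iff_eq_mul]
  apply G_ext
  intro x
  rw [G_mul, G_mul, tr_apply, T_apply, tr_apply, T_apply]
  funext k
  by_cases hk : k = i
  · subst hk
    simp only [Pi.add_apply, sg_same]
    ring
  · simp only [Pi.add_apply, sg_ne _ hk]
    ring

/-- A subgroup normalised by the transvections and containing a nontrivial translation contains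
all translations with values in a line. -/
theorem line_of_conj (K : Subgroup G)
    (hK : ∀ (i j : I) (s : ℚ) (h : j ≠ i), ∀ x ∈ K, T i j s h * x * (T i j s h)⁻¹ ∈ K)
    (d : X) (hd : FS d) (hdK : tr d hd ∈ K) (j i : I) (q : ℚ) :
    tr (sg i (q * d j)) (FS_sg _ _) ∈ K := by
  have key : ∀ (d : X) (hd : FS d), tr d hd ∈ K → ∀ (j i : I), j ≠ i → ∀ q : ℚ,
      tr (sg i (q * d j)) (FS_sg _ _) ∈ K := by
    intro d hd hdK j i hij q
    have h1 := hK i j q hij _ hdK
    rw [T_conj] at h1
    have h2 := K.mul_mem (K.inv_mem hdK) h1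
    rw [tr_inv, tr_mul] at h2
    convert h2 using 1
    apply tr_congr
    abel
  by_cases hij : j = i
  · subst hij
    obtain ⟨N, hN⟩ := I_infinite {j} 0
    have hN' : ((N, 0) : I) ≠ j := by simpa using hN
    have h1 := key d hd hdK j (N, 0) hN'.symm 1
    have h2 := key _ _ h1 (N, 0) j hN' q
    rw [sg_same] at h2
    simpa using h2
  · exact key d hd hdK j i hij q

theorem tr_mem_of_line (K : Subgroup G) (a : ℚ_[2])
    (h : ∀ (i : I) (q : ℚ), tr (sg i (q * a)) (FS_sg _ _) ∈ K) (m : X) (hm : FS m)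
    (hma : ∀ i, ∃ q : ℚ, m i = q * a) : tr m hm ∈ K := by
  classical
  have key : ∀ (J : Finset I) (m : X) (hm : FS m), (∀ i ∉ J, m i = 0) → (∀ i, ∃ q : ℚ, m i = q * a) →
      tr m hm ∈ K := by
    intro J
    induction J using Finset.induction_on with
    | empty =>
      intro m hm h0 _
      have : m = 0 := funext fun i => h0 i (Finset.notMem_empty i)
      subst this
      rw [tr_congr hm FS.zero rfl, tr_zero]
      exact K.one_mem
    | insert j J hj ih =>
      intro m hm h0 hq
      obtain ⟨q, hqj⟩ := hq j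
      have hm' : FS (m + -(sg j (q * a))) := hm.add (FS_sg _ _).neg
      have h1 := ih (m + -(sg j (q * a))) hm' (by
        intro i hi
        rw [Pi.add_apply, Pi.neg_apply]
        by_cases hij : i = j
        · subst hij
          rw [sg_same, hqj]; ring
        · rw [sg_ne _ hij, h0 i (by simp [hij, hi])]; simp) (by
        intro i
        rw [Pi.add_apply, Pi.neg_apply]
        by_cases hij : i = j
        · subst hij
          exact ⟨0, by rw [sg_same, hqj]; push_cast; ring⟩
        · rw [sg_ne _ hij, neg_zero, add_zero]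
          exact hq i)
      have h2 := K.mul_mem h1 (h j q)
      rw [tr_mul] at h2
      convert h2 using 1
      apply tr_congr
      abel
  obtain ⟨J, hJ⟩ := hm
  exact key J m ⟨J, hJ⟩ hJ hma

end Q16.Irr
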