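import Pool.Agent.Q16.SubTop2

/-!
# A topological group of affine transformations
-/

open Topology Filter Set Equiv

noncomputable section

namespace Q16.Irr

abbrev I : Type := ℕ × ℚ_[2]
abbrev X : Type := I → ℚ_[2]

/-- The centre. -/
def c : X := fun i => i.2

/-- Finite support. -/
def FS (x : X) : Prop := ∃ J : Finset I, ∀ i ∉ J, x i = 0

theorem FS.add {x y : X} (hx : FS x) (hy : FS y) : FS (x + y) := by
  classical
  obtain ⟨J, hJ⟩ := hx
  obtain ⟨K, hK⟩ := hy
  refine ⟨J ∪ K, fun i hi => ?_⟩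
  rw [Finset.notMem_union] at hi
  rw [Pi.add_apply, hJ i hi.1, hK i hi.2, add_zero]

theorem FS.neg {x : X} (hx : FS x) : FS (-x) := by
  obtain ⟨J, hJ⟩ := hx
  exact ⟨J, fun i hi => by rw [Pi.neg_apply, hJ i hi, neg_zero]⟩

theorem FS.zero : FS 0 := ⟨∅, fun _ _ => rfl⟩

/-- The properties defining the group. -/
structure PG (g : X → X) : Prop where
  add : ∀ x y, g (x + y) + g 0 = g x + g y
  fin : ∃ J : Finset I, (∀ x, ∀ i ∉ J, g x i = x i) ∧
    ∀ x y, (∀ i ∈ J, x i = y i) → ∀ i ∈ J, g x i = g y i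
  bdd : ∃ r : ℕ, ∀ x y (C : ℝ), (∀ i, ‖x i - y i‖ ≤ C) → ∀ i, ‖g x i - g y i‖ ≤ 2 ^ r * C
  rat : ∀ (a : ℚ_[2]) x y, (∀ i, ∃ q : ℚ, x i - y i = q * a) →
    ∀ i, ∃ q : ℚ, g x i - g y i = q * a

theorem PG.sum_rule {g : X → X} (h : PG g) {a b a' b' : X} (e : a + b = a' + b') :
    g a + g b = g a' + g b' := by
  rw [← h.add a b, ← h.add a' b', e]

theorem PG.id : PG id where
  add _ _ := by simp
  fin := ⟨∅, fun _ _ _ => rfl, fun _ _ _ i hi => absurd hi (Finset.notMem_empty i)⟩
  bdd := ⟨0, fun x y C h i => by simpa using h i⟩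
  rat _ _ _ h := h

theorem PG.comp {f g : X → X} (hf : PG f) (hg : PG g) : PG (f ∘ g) where
  add x y := hf.sum_rule (hg.add x y)
  fin := by
    classical
    obtain ⟨J, hJ1, hJ2⟩ := hf.fin
    obtain ⟨K, hK1, hK2⟩ := hg.fin
    refine ⟨J ∪ K, ?_, ?_⟩
    · intro x i hi
      rw [Finset.notMem_union] at hi
      rw [Function.comp_apply, hJ1 _ i hi.1, hK1 _ i hi.2]
    · have key : ∀ x y, (∀ i ∈ J ∪ K, x i = y i) → ∀ i ∈ J ∪ K, g x i = g y i := by
        intro x y h i hi
        by_cases hiK : i ∈ K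
        · exact hK2 x y (fun j hj => h j (Finset.mem_union_right _ hj)) i hiK
        · rw [hK1 x i hiK, hK1 y i hiK, h i hi]
      intro x y h i hi
      have h1 := key x y h
      change f (g x) i = f (g y) i
      by_cases hiJ : i ∈ J
      · exact hJ2 _ _ (fun j hj => h1 j (Finset.mem_union_left _ hj)) i hiJ
      · rw [hJ1 _ i hiJ, hJ1 _ i hiJ, h1 i hi]
  bdd := by
    obtain ⟨r, hr⟩ := hf.bdd
    obtain ⟨s, hs⟩ := hg.bdd
    refine ⟨r + s, fun x y C h i => ?_⟩
    have := hr _ _ _ (hs x y C h) i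
    rw [pow_add, mul_assoc]
    exact this
  rat a x y h := hf.rat a _ _ (hg.rat a x y h)

/-- The subgroup of permutations `g` such that `g` and its inverse satisfy `P`. -/
def symSub (P : (X → X) → Prop) (h1 : P id) (hm : ∀ f g, P f → P g → P (f ∘ g)) :
    Subgroup (Perm X) where
  carrier := {g | P g ∧ P g.symm}
  one_mem' := ⟨h1, h1⟩
  mul_mem' := fun {a b} ha hb => ⟨hm a b ha.1 hb.1, hm b.symm a.symm hb.2 ha.2⟩
  inv_mem' := fun ha => ⟨ha.2, ha.1⟩

def G0 : Subgroup (Perm X) := symSub PG PG.id fun _ _ => PG.comp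

abbrev G : Type := G0

theorem PG_of (g : G) : PG g.1 := g.2.1
theorem PG_symm (g : G) : PG g.1.symm := g.2.2

theorem C_nonneg {x y : X} {C : ℝ} (h : ∀ i, ‖x i - y i‖ ≤ C) : 0 ≤ C :=
  (norm_nonneg _).trans (h (0, 0))

/-- Small elements. -/
structure Q (E : Set X) (n : ℕ) (k : X → X) : Prop where
  fixc : k c = c
  fixE : ∀ e ∈ E, k (c + e) = c + e
  zero : ∀ i, ‖k 0 i‖ ≤ (1 / 2 : ℝ) ^ n
  lip : ∀ x y (C : ℝ), (∀ i, ‖x i - y i‖ ≤ C) →
    ∀ i, ‖k x i - k y i - (x i - y i)‖ ≤ (1 / 2 : ℝ) ^ n * C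

theorem half_pow_le_one (n : ℕ) : (1 / 2 : ℝ) ^ n ≤ 1 := pow_le_one₀ (by norm_num) (by norm_num)

theorem half_pow_nonneg (n : ℕ) : 0 ≤ (1 / 2 : ℝ) ^ n := by positivity

theorem Q.id (E : Set X) (n : ℕ) : Q E n id where
  fixc := rfl
  fixE _ _ := rfl
  zero i := by simp
  lip x y C h i := by
    have := C_nonneg h
    change ‖x i - y i - (x i - y i)‖ ≤ _
    rw [sub_self, norm_zero]
    positivity

theorem norm_le_of_sub {a b : ℚ_[2]} {C : ℝ} (h1 : ‖a - b‖ ≤ C) (h2 : ‖b‖ ≤ C) : ‖a‖ ≤ C := by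
  have h : a = (a - b) + b := by ring
  rw [h]
  exact (Padic.nonarchimedean _ _).trans (max_le h1 h2)

theorem norm_add_le' {a b : ℚ_[2]} {C : ℝ} (h1 : ‖a‖ ≤ C) (h2 : ‖b‖ ≤ C) : ‖a + b‖ ≤ C :=
  (Padic.nonarchimedean _ _).trans (max_le h1 h2)

theorem Q.isometry {E : Set X} {n : ℕ} {k : X → X} (h : Q E n k) (x y : X) (C : ℝ)
    (hC : ∀ i, ‖x i - y i‖ ≤ C) (i : I) : ‖k x i - k y i‖ ≤ C := by
  have h1 := h.lip x y C hC i
  have h0 := C_nonneg hC
  have h2 : (1 / 2 : ℝ) ^ n * C ≤ C := by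
    have := half_pow_le_one n
    nlinarith
  exact norm_le_of_sub (h1.trans h2) (hC i)

theorem Q.comp {E : Set X} {n : ℕ} {f g : X → X} (hf : Q E n f) (hg : Q E n g) :
    Q E n (f ∘ g) where
  fixc := by rw [Function.comp_apply, hg.fixc, hf.fixc]
  fixE e he := by rw [Function.comp_apply, hg.fixE e he, hf.fixE e he]
  zero i := by
    have h1 : ∀ i, ‖g 0 i - (0 : X) i‖ ≤ (1 / 2 : ℝ) ^ n := fun i => by
      rw [Pi.zero_apply, sub_zero]; exact hg.zero i
    have h2 := hf.isometry (g 0) 0 _ h1 i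
    exact norm_le_of_sub h2 (hf.zero i)
  lip x y C h i := by
    have h1 := hf.lip (g x) (g y) C (hg.isometry x y C h) i
    have h2 := hg.lip x y C h i
    have h3 : (f ∘ g) x i - (f ∘ g) y i - (x i - y i) =
        (f (g x) i - f (g y) i - (g x i - g y i)) + (g x i - g y i - (x i - y i)) := by
      simp only [Function.comp_apply]; ring
    rw [h3]
    exact norm_add_le' h1 h2

theorem Q.mono {E E' : Set X} {n n' : ℕ} {k : X → X} (h : Q E' n' k) (hE : E ⊆ E') (hn : n ≤ n') :
    Q E n k where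
  fixc := h.fixc
  fixE e he := h.fixE e (hE he)
  zero i := (h.zero i).trans (pow_le_pow_of_le_one (by norm_num) (by norm_num) hn)
  lip x y C hC i := (h.lip x y C hC i).trans
    (mul_le_mul_of_nonneg_right (pow_le_pow_of_le_one (by norm_num) (by norm_num) hn)
      (C_nonneg hC))

/-- Basic neighbourhoods. -/
def V (E : Set X) (n : ℕ) : Subgroup G :=
  (symSub (Q E n) (Q.id E n) fun _ _ => Q.comp).comap G0.subtype

theorem mem_V {E : Set X} {n : ℕ} {g : G} : g ∈ V E n ↔ Q E n g.1 ∧ Q E n g.1.symm := Iff.rfl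

/-- Index set of the neighbourhood base. -/
abbrev Idx : Type := {E : Set X // E.Finite ∧ ∀ e ∈ E, FS e} × ℕ

theorem FS_sub {g : X → X} (hg : PG g) (x : X) : FS (g x - x) := by
  obtain ⟨J, hJ, _⟩ := hg.fin
  exact ⟨J, fun i hi => by rw [Pi.sub_apply, hJ x i hi, sub_self]⟩

theorem conj_Q (g : G) (E : Set X) (hE : E.Finite) (hFS : ∀ e ∈ E, FS e) (n : ℕ) :
    ∃ (E' : Set X) (n' : ℕ), E'.Finite ∧ (∀ e ∈ E', FS e) ∧ ∀ k : X → X, PG k → Q E' n' k →
      Q E n (g.1 ∘ k ∘ g.1.symm) := by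
  obtain ⟨r, hr⟩ := (PG_of g).bdd
  obtain ⟨s, hs⟩ := (PG_symm g).bdd
  let z : X := g.1.symm 0
  let m0 : X := g.1.symm c - c
  let m : X → X := fun e => g.1.symm (c + e) - c
  refine ⟨{z, m0} ∪ m '' E, n + r + s, ((Set.toFinite _).union (hE.image _)), ?_, ?_⟩
  · intro e he
    rcases he with he | he
    · rcases he with rfl | he
      · have := FS_sub (PG_symm g) 0
        rwa [sub_zero] at this
      · rw [mem_singleton_iff.1 he]
        exact FS_sub (PG_symm g) c
    · obtain ⟨e, he, rfl⟩ := he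
      have h1 := FS_sub (PG_symm g) (c + e)
      have h2 : m e = (g.1.symm (c + e) - (c + e)) + e := by
        simp only [m]; abel
      rw [h2]
      exact h1.add (hFS e he)
  · intro k hkP hk
    have hz : k (c + z) = c + z := hk.fixE z (Or.inl (Or.inl rfl))
    have hkz : k z = z + k 0 := by
      have h1 := hkP.add c z
      rw [hz, hk.fixc] at h1
      have h2 : c + (z + k 0) = c + k z := by rw [← h1]; abel
      exact (add_left_cancel h2).symm
    constructor
    · -- fixc
      have h1 : k (c + m0) = c + m0 := hk.fixE m0 (Or.inl (Or.inr rfl))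
      have h2 : c + m0 = g.1.symm c := by simp only [m0]; abel
      rw [h2] at h1
      simp only [Function.comp_apply]
      rw [h1, Equiv.apply_symm_apply]
    · intro e he
      have h1 : k (c + m e) = c + m e := hk.fixE (m e) (Or.inr ⟨e, he, rfl⟩)
      have h2 : c + m e = g.1.symm (c + e) := by simp only [m]; abel
      rw [h2] at h1
      simp only [Function.comp_apply]
      rw [h1, Equiv.apply_symm_apply]
    · intro i
      have h1 : ∀ i, ‖k z i - z i‖ ≤ (1 / 2 : ℝ) ^ (n + r + s) := by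
        intro i
        rw [hkz, Pi.add_apply, add_sub_cancel_left]
        exact hk.zero i
      have h2 := hr (k z) z _ h1 i
      have h3 : g.1 z i = 0 := by
        have : g.1 z = 0 := Equiv.apply_symm_apply _ _
        rw [this]; rfl
      rw [h3, sub_zero] at h2
      have h4 : (2 : ℝ) ^ r * (1 / 2 : ℝ) ^ (n + r + s) ≤ (1 / 2 : ℝ) ^ n := by
        have h5 : (2 : ℝ) ^ r * (1 / 2 : ℝ) ^ (n + r + s) = (1 / 2 : ℝ) ^ n * (1 / 2 : ℝ) ^ s := by
          rw [pow_add, pow_add, one_div, inv_pow, inv_pow, inv_pow]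
          field_simp
        rw [h5]
        have := half_pow_le_one s
        have := half_pow_nonneg n
        nlinarith
      exact h2.trans h4
    · intro x y C hC i
      let u := g.1.symm x
      let w := g.1.symm y
      have hu : g.1 u = x := Equiv.apply_symm_apply _ _
      have hw : g.1 w = y := Equiv.apply_symm_apply _ _
      have h1 := hs x y C hC
      have h2 := hk.lip u w _ h1
      have h3 : g.1 (k u) + g.1 w = g.1 (k w + u + (k u - k w - (u - w))) + g.1 0 := by
        rw [← (PG_of g).add]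
        congr 2
        abel
      have h4 : g.1 (k w) + g.1 u = g.1 (k w + u) + g.1 0 := by
        rw [← (PG_of g).add]
      have h5 : ∀ i, ‖(k w + u + (k u - k w - (u - w))) i - (k w + u) i‖ ≤
          (1 / 2 : ℝ) ^ (n + r + s) * (2 ^ s * C) := by
        intro i
        have : (k w + u + (k u - k w - (u - w))) i - (k w + u) i = k u i - k w i - (u i - w i) := by
          simp only [Pi.add_apply, Pi.sub_apply]; ring
        rw [this]
        exact h2 i
      have h6 := hr _ _ _ h5 i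
      have h7 : g.1 (k u) i - g.1 (k w) i - (x i - y i) =
          g.1 (k w + u + (k u - k w - (u - w))) i - g.1 (k w + u) i := by
        have e1 := congrFun h3 i
        have e2 := congrFun h4 i
        simp only [Pi.add_apply] at e1 e2
        rw [hu] at e2
        rw [hw] at e1
        linear_combination e1 - e2
      change ‖g.1 (k u) i - g.1 (k w) i - (x i - y i)‖ ≤ _
      rw [h7]
      refine h6.trans (le_of_eq ?_)
      rw [pow_add, pow_add, one_div, inv_pow, inv_pow, inv_pow]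
      field_simp

def basis : SubBasis G Idx where
  V i := V i.1.1 i.2
  i₀ := (⟨∅, Set.finite_empty, fun _ h => absurd h (Set.notMem_empty _)⟩, 0)
  dir := by
    intro i j
    refine ⟨(⟨i.1.1 ∪ j.1.1, i.1.2.1.union j.1.2.1, ?_⟩, max i.2 j.2), ?_, ?_⟩
    · rintro e (he | he)
      · exact i.1.2.2 e he
      · exact j.1.2.2 e he
    · intro g hg
      exact ⟨hg.1.mono subset_union_left (le_max_left _ _),
        hg.2.mono subset_union_left (le_max_left _ _)⟩
    · intro g hg
      exact ⟨hg.1.mono subset_union_right (le_max_right _ _),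
        hg.2.mono subset_union_right (le_max_right _ _)⟩
  conj := by
    intro i g
    obtain ⟨E', n', hE', hFS', h⟩ := conj_Q g i.1.1 i.1.2.1 i.1.2.2 i.2
    refine ⟨(⟨E', hE', hFS'⟩, n'), fun x hx => ?_⟩
    constructor
    · exact h x.1 (PG_of x) hx.1
    · exact h x.1.symm (PG_symm x) hx.2

instance : TopologicalSpace G := basis.topology
instance : IsTopologicalGroup G := basis.isTopologicalGroup

end Q16.Irr
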