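import Pool.Agent.Q16.Irr.Elements

/-!
# The coset space is irreducible and faithful; the line subgroups
-/

open Topology Filter Set Equiv

noncomputable section

namespace Q16.Irr

theorem norm_two_pow (n : ℕ) : ‖((2 ^ n : ℚ) : ℚ_[2])‖ = (1 / 2 : ℝ) ^ n := by
  have h : ‖(2 : ℚ_[2])‖ = 1 / 2 := by
    have := Padic.norm_p (p := 2)
    simpa using this
  push_cast
  rw [norm_pow, h]

theorem two_pow_ne (n : ℕ) : ((2 ^ n : ℚ) : ℚ_[2]) ≠ 0 := by
  rw [← norm_pos_iff, norm_two_pow]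
  positivity

/-- Small elements moving `0` to a prescribed small vector. -/
theorem exists_small (E : Set X) (hE : E.Finite) (hFS : ∀ e ∈ E, FS e) (n : ℕ) (w : X) (hw : FS w)
    (hsmall : ∀ i, ‖w i‖ ≤ (1 / 2 : ℝ) ^ n) : ∃ v ∈ V E n, v.1 0 = w := by
  classical
  obtain ⟨W, hW⟩ := hw
  -- a finite set containing all supports
  have hS : ∃ S : Finset I, ∀ e ∈ E, ∀ i ∉ S, e i = 0 := by
    choose! s hs using hFS
    refine ⟨hE.toFinset.biUnion s, fun e he i hi => hs e he i ?_⟩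
    intro h
    exact hi (Finset.mem_biUnion.2 ⟨e, hE.mem_toFinset.2 he, h⟩)
  obtain ⟨S, hS⟩ := hS
  let s : ℚ := 2 ^ n
  have hs0 : (s : ℚ_[2]) ≠ 0 := two_pow_ne n
  have hex : ∀ i : I, ∃ k : I, k ∉ W ∪ S ∧ c k = -(w i) / s := by
    intro i
    obtain ⟨N, hN⟩ := I_infinite (W ∪ S) (-(w i) / s)
    exact ⟨_, hN, rfl⟩
  choose j hj hcj using hex
  have hjW : ∀ i, j i ∉ W := fun i h => hj i (Finset.mem_union_left _ h)
  have hjS : ∀ i, j i ∉ S := fun i h => hj i (Finset.mem_union_right _ h)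
  refine ⟨sh W w s j (Or.inr fun i _ => hjW i), ?_, ?_⟩
  · have key : ∀ (w : X) (s : ℚ), (∀ i, w i + s * c (j i) = 0) → (∀ i, ‖w i‖ ≤ (1 / 2 : ℝ) ^ n) →
        ‖(s : ℚ_[2])‖ = (1 / 2 : ℝ) ^ n → Q E n (F W w s j) := by
      intro w s h1 h2 h3
      constructor
      · funext i
        by_cases hi : i ∈ W
        · rw [F_mem hi, add_assoc, h1, add_zero]
        · rw [F_not_mem hi]
      · intro e he
        funext i
        by_cases hi : i ∈ W
        · rw [F_mem hi, Pi.add_apply, Pi.add_apply, hS e he _ (hjS i), add_zero, add_assoc, h1,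
            add_zero]
        · rw [F_not_mem hi]
      · intro i
        by_cases hi : i ∈ W
        · rw [F_mem hi]
          simpa using h2 i
        · rw [F_not_mem hi]
          simp
      · intro x y C hC i
        have h0 := C_nonneg hC
        by_cases hi : i ∈ W
        · rw [F_mem hi, F_mem hi]
          have : x i + w i + s * x (j i) - (y i + w i + s * y (j i)) - (x i - y i) =
              s * (x (j i) - y (j i)) := by ring
          rw [this, norm_mul, h3]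
          exact mul_le_mul_of_nonneg_left (hC _) (half_pow_nonneg n)
        · rw [F_not_mem hi, F_not_mem hi, sub_self, norm_zero]
          have := half_pow_nonneg n
          positivity
    refine ⟨key w s ?_ hsmall (norm_two_pow n), key (-w) (-s) ?_ ?_ ?_⟩
    · intro i
      rw [hcj]
      field_simp
      ring
    · intro i
      rw [hcj, Pi.neg_apply]
      push_cast
      field_simp
      ring
    · intro i
      rw [Pi.neg_apply, norm_neg]
      exact hsmall i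
    · push_cast
      rw [norm_neg]
      exact norm_two_pow n
  · rw [sh_coe]
    funext i
    by_cases hi : i ∈ W
    · rw [F_mem hi]; simp
    · rw [F_not_mem hi, hW i hi]; rfl

/-- Density: a closed subgroup containing `H1` and all translations with values in a line contains
all translations. -/
theorem all_tr (K : Subgroup G) (hK : IsClosed (K : Set G)) (hH : H1 ≤ K) (a : ℚ_[2]) (ha : a ≠ 0)
    (h : ∀ (i : I) (q : ℚ), tr (sg i (q * a)) (FS_sg _ _) ∈ K) (m : X) (hm : FS m) :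
    tr m hm ∈ K := by
  classical
  apply basis.mem_of_isClosed hK
  intro idx
  obtain ⟨W, hW⟩ := hm
  have hdense : ∀ i : I, ∃ q : ℚ, ‖m i - q * a‖ ≤ (1 / 2 : ℝ) ^ idx.2 := by
    intro i
    have ha' : 0 < ‖a‖ := norm_pos_iff.2 ha
    obtain ⟨q, hq⟩ := Padic.rat_dense 2 (m i / a)
      (ε := (1 / 2 : ℝ) ^ idx.2 / ‖a‖) (by positivity)
    refine ⟨q, ?_⟩
    have h1 : m i - q * a = (m i / a - q) * a := by
      field_simp
    rw [h1, norm_mul]
    rw [lt_div_iff₀ ha'] at hq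
    exact hq.le
  choose q hq using hdense
  let m' : X := fun i => if i ∈ W then q i * a else 0
  have hm' : FS m' := ⟨W, fun i hi => if_neg hi⟩
  let w : X := m' + -m
  have hm : FS m := ⟨W, hW⟩
  have hw : FS w := hm'.add hm.neg
  have hsmall : ∀ i, ‖w i‖ ≤ (1 / 2 : ℝ) ^ idx.2 := by
    intro i
    by_cases hi : i ∈ W
    · have : w i = -(m i - q i * a) := by
        simp only [w, m', Pi.add_apply, Pi.neg_apply, if_pos hi]; ring
      rw [this, norm_neg]
      exact hq i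
    · have : w i = 0 := by
        simp only [w, m', Pi.add_apply, Pi.neg_apply, if_neg hi, hW i hi]; ring
      rw [this, norm_zero]
      exact half_pow_nonneg _
  obtain ⟨v, hv, hv0⟩ := exists_small idx.1.1 idx.1.2.1 idx.1.2.2 idx.2 w hw hsmall
  refine ⟨v, hv, ?_⟩
  have h1 : tr m' hm' ∈ K := tr_mem_of_line K a h m' hm' (by
    intro i
    by_cases hi : i ∈ W
    · exact ⟨q i, by simp only [m', if_pos hi]⟩
    · exact ⟨0, by simp only [m', if_neg hi]; simp⟩)
  have h2 : (tr m' hm')⁻¹ * (tr m hm * v) ∈ H1 := by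
    rw [tr_inv, mem_H1, G_mul, G_mul, tr_apply, tr_apply, hv0]
    simp only [w]
    abel
  have h3 := K.mul_mem h1 (hH h2)
  rwa [mul_inv_cancel_left] at h3

/-- `H1` is a maximal closed subgroup. -/
theorem maximal (K : Subgroup G) (hK : IsClosed (K : Set G)) (hH : H1 ≤ K) : K = H1 ∨ K = ⊤ := by
  by_cases h : K ≤ H1
  · exact Or.inl (le_antisymm h hH)
  right
  obtain ⟨g, hgK, hg⟩ := SetLike.not_le_iff_exists.1 h
  have hd : FS (g.1 0) := by
    have := FS_sub (PG_of g) 0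
    rwa [sub_zero] at this
  have hlin : ∀ (g : G) (hd : FS (g.1 0)), (tr (g.1 0) hd)⁻¹ * g ∈ H1 := by
    intro g hd
    rw [tr_inv, mem_H1, G_mul, tr_apply]
    abel
  have h1 : tr (g.1 0) hd ∈ K := by
    have h2 := K.mul_mem hgK (K.inv_mem (hH (hlin g hd)))
    rwa [mul_inv_rev, inv_inv, mul_inv_cancel_left] at h2
  obtain ⟨j, hj⟩ := Function.ne_iff.1 hg
  have h3 : ∀ (i : I) (q : ℚ), tr (sg i (q * g.1 0 j)) (FS_sg _ _) ∈ K := by
    intro i q
    apply line_of_conj K _ (g.1 0) hd h1 j i q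
    intro i j s hij x hx
    exact K.mul_mem (K.mul_mem (hH (T_mem_H1 _ _ _ _)) hx) (K.inv_mem (hH (T_mem_H1 _ _ _ _)))
  have h4 := all_tr K hK hH _ hj h3
  rw [eq_top_iff]
  intro x _
  have hx : FS (x.1 0) := by
    have := FS_sub (PG_of x) 0
    rwa [sub_zero] at this
  have h5 := K.mul_mem (h4 _ hx) (hH (hlin x hx))
  rwa [mul_inv_cancel_left] at h5

theorem H1_ne_top : H1 ≠ ⊤ := by
  intro h
  have h1 : tr (sg (0, 0) 1) (FS_sg _ _) ∈ H1 := by rw [h]; trivial
  rw [mem_H1, tr_apply, zero_add] at h1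
  have h2 := congrFun h1 (0, 0)
  rw [sg_same] at h2
  exact one_ne_zero h2

theorem core : H1.normalCore = ⊥ := by
  classical
  rw [eq_bot_iff]
  intro g hg
  rw [Subgroup.mem_bot]
  have h1 : ∀ m, FS m → g.1 m = m := by
    intro m hm
    have h2 := hg (tr (-m) hm.neg)
    rw [tr_inv, mem_H1, G_mul, G_mul, tr_apply, tr_apply, neg_neg, zero_add] at h2
    rw [add_neg_eq_zero] at h2
    exact h2
  apply G_ext
  intro x
  obtain ⟨J, hJ1, hJ2⟩ := (PG_of g).fin
  funext i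
  by_cases hi : i ∈ J
  · let m : X := fun k => if k ∈ J then x k else 0
    have hm : FS m := ⟨J, fun k hk => if_neg hk⟩
    have h2 : g.1 x i = g.1 m i := hJ2 _ _ (fun k hk => by simp only [m, if_pos hk]) i hi
    rw [h2, h1 m hm, G_one]
    simp only [m, if_pos hi]
  · exact hJ1 x i hi

/-- The subgroup of translations with values in the line `ℚ a`. -/
def L (a : ℚ_[2]) : Subgroup G where
  carrier := {g | ∃ (m : X) (hm : FS m), (∀ i, ∃ q : ℚ, m i = q * a) ∧ g = tr m hm}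
  one_mem' := ⟨0, FS.zero, fun i => ⟨0, by simp⟩, tr_zero.symm⟩
  mul_mem' := by
    rintro _ _ ⟨m, hm, hq, rfl⟩ ⟨n, hn, hr, rfl⟩
    refine ⟨m + n, hm.add hn, fun i => ?_, tr_mul hm hn⟩
    obtain ⟨q, hq⟩ := hq i
    obtain ⟨r, hr⟩ := hr i
    exact ⟨q + r, by rw [Pi.add_apply, hq, hr]; push_cast; ring⟩
  inv_mem' := by
    rintro _ ⟨m, hm, hq, rfl⟩
    refine ⟨-m, hm.neg, fun i => ?_, tr_inv hm⟩
    obtain ⟨q, hq⟩ := hq i
    exact ⟨-q, by rw [Pi.neg_apply, hq]; push_cast; ring⟩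

theorem tr_mem_L {a : ℚ_[2]} {m : X} {hm : FS m} : tr m hm ∈ L a ↔ ∀ i, ∃ q : ℚ, m i = q * a := by
  constructor
  · rintro ⟨n, hn, hq, h⟩
    rw [tr_injective h]
    exact hq
  · intro h
    exact ⟨m, hm, h, rfl⟩

theorem isClosed_L (a : ℚ_[2]) : IsClosed (L a : Set G) := by
  apply basis.isClosed_iff.2
  intro g hg
  by_contra hn
  push Not at hn
  apply hg
  obtain ⟨v, hv, m, hm, hq, hgv⟩ := hn (⟨∅, Set.finite_empty, fun _ h => absurd h (Set.notMem_empty _)⟩, 0)
  have hc : g.1 c - c = m := by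
    have h1 := congrArg (fun x : G => x.1 c) hgv
    simp only [G_mul, tr_apply] at h1
    have hf : v.1 c = c := hv.1.fixc
    rw [hf] at h1
    rw [h1]; abel
  have h2 : ∀ e, FS e → g.1 (c + e) = g.1 c + e := by
    intro e he
    obtain ⟨v, hv, m', hm', hq', hgv'⟩ := hn (⟨{e}, Set.finite_singleton e, fun x hx => by
      rw [mem_singleton_iff.1 hx]; exact he⟩, 0)
    have e1 := congrArg (fun x : G => x.1 c) hgv'
    have e2 := congrArg (fun x : G => x.1 (c + e)) hgv'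
    simp only [G_mul, tr_apply] at e1 e2
    have f1 : v.1 c = c := hv.1.fixc
    have f2 : v.1 (c + e) = c + e := hv.1.fixE e rfl
    rw [f1] at e1
    rw [f2] at e2
    rw [e1, e2]; abel
  rw [eq_tr g h2]
  change tr _ _ ∈ L a
  rw [tr_mem_L]
  intro i
  rw [hc]
  exact hq i

theorem normal_L (a : ℚ_[2]) : (L a).Normal := by
  constructor
  rintro _ ⟨m, hm, hq, rfl⟩ g
  have h1 : ∀ x, (g * tr m hm * g⁻¹).1 x = x + (g.1 m - g.1 0) := by
    intro x
    rw [G_mul, G_mul, G_inv, tr_apply]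
    have h2 := (PG_of g).add (g.1.symm x) m
    rw [Equiv.apply_symm_apply] at h2
    have h3 : g.1 (g.1.symm x + m) = x + g.1 m - g.1 0 := by rw [← h2]; abel
    rw [h3]; abel
  have hFS : FS (g.1 m - g.1 0) := by
    have e1 := FS_sub (PG_of g) m
    have e2 := FS_sub (PG_of g) 0
    have e3 : g.1 m - g.1 0 = ((g.1 m - m) + m) + -(g.1 0 - 0) := by abel
    rw [e3]
    exact (e1.add hm).add e2.neg
  refine ⟨g.1 m - g.1 0, hFS, ?_, ?_⟩
  · intro i
    have h2 := (PG_of g).rat a m 0 (fun i => by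
      obtain ⟨q, hq⟩ := hq i
      exact ⟨q, by rw [Pi.zero_apply, sub_zero, hq]⟩) i
    exact h2
  · apply G_ext
    intro x
    rw [h1, tr_apply]

theorem L_ne_bot {a : ℚ_[2]} (ha : a ≠ 0) : L a ≠ ⊥ := by
  intro h
  have h1 : tr (sg (0, 0) a) (FS_sg _ _) ∈ L a := by
    rw [tr_mem_L]
    intro i
    by_cases hi : i = (0, 0)
    · subst hi
      exact ⟨1, by rw [sg_same]; simp⟩
    · exact ⟨0, by rw [sg_ne _ hi]; simp⟩
  rw [h, Subgroup.mem_bot, ← tr_zero] at h1
  have h2 := congrFun (tr_injective h1) (0, 0)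
  rw [sg_same] at h2
  exact ha h2

theorem L_minimal {a : ℚ_[2]} (N : Subgroup G) (hN : N.Normal) (hNL : N ≤ L a) :
    N = ⊥ ∨ N = L a := by
  by_cases h : N = ⊥
  · exact Or.inl h
  right
  obtain ⟨g, hg, hg1⟩ : ∃ g ∈ N, g ≠ 1 := by
    by_contra hn
    push Not at hn
    exact h ((Subgroup.eq_bot_iff_forall N).2 hn)
  obtain ⟨d, hd, hq, rfl⟩ := hNL hg
  have hd0 : d ≠ 0 := by
    rintro rfl
    exact hg1 tr_zero
  obtain ⟨j, hj⟩ := Function.ne_iff.1 hd0
  rw [Pi.zero_apply] at hj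
  obtain ⟨q, hqj⟩ := hq j
  have hq0 : (q : ℚ_[2]) ≠ 0 := by
    intro e
    rw [e, zero_mul] at hqj
    exact hj hqj
  have h1 : ∀ (i : I) (r : ℚ), tr (sg i (r * d j)) (FS_sg _ _) ∈ N := fun i r =>
    line_of_conj N (fun i j s hij x hx => hN.conj_mem x hx _) d hd hg j i r
  have h2 : ∀ (i : I) (r : ℚ), tr (sg i (r * a)) (FS_sg _ _) ∈ N := by
    intro i r
    have := h1 i (r / q)
    convert this using 1
    apply tr_congr
    rw [hqj]
    congr 1
    push_cast
    field_simp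
  apply le_antisymm hNL
  rintro _ ⟨m, hm, hqm, rfl⟩
  exact tr_mem_of_line N a h2 m hm hqm

theorem L_comm (a b : ℚ_[2]) : ∀ x ∈ L a, ∀ y ∈ L b, x * y = y * x := by
  rintro _ ⟨m, hm, _, rfl⟩ _ ⟨n, hn, _, rfl⟩
  rw [tr_mul, tr_mul]
  apply tr_congr
  abel

theorem line_of_L_eq {a b : ℚ_[2]} (h : L a = L b) : ∃ q : ℚ, a = q * b := by
  have h1 : tr (sg (0, 0) a) (FS_sg _ _) ∈ L a := by
    rw [tr_mem_L]
    intro i
    by_cases hi : i = (0, 0)
    · subst hi
      exact ⟨1, by rw [sg_same]; simp⟩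
    · exact ⟨0, by rw [sg_ne _ hi]; simp⟩
  rw [h, tr_mem_L] at h1
  obtain ⟨q, hq⟩ := h1 (0, 0)
  rw [sg_same] at hq
  exact ⟨q, hq⟩

theorem uncountable_padic : ¬ (Set.univ : Set ℚ_[2]).Countable := by
  intro h
  have h1 := continuum_le_cardinal_of_nontriviallyNormedField ℚ_[2]
  have h2 : Cardinal.mk ℚ_[2] ≤ Cardinal.aleph0 := by
    rw [← Cardinal.mk_univ]
    exact Cardinal.mk_le_aleph0_iff.2 h.to_subtype |> fun h => h
  exact absurd (h1.trans h2) (not_le.2 Cardinal.aleph0_lt_continuum)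

theorem infinite_L : (L '' {a : ℚ_[2] | a ≠ 0}).Infinite := by
  intro hfin
  apply uncountable_padic
  have hcov : (Set.univ : Set ℚ_[2]) ⊆ {0} ∪ ⋃ M ∈ L '' {a : ℚ_[2] | a ≠ 0},
      {a : ℚ_[2] | L a = M} := by
    intro a _
    by_cases ha : a = 0
    · exact Or.inl ha
    · right
      exact mem_biUnion ⟨a, ha, rfl⟩ rfl
  refine ((countable_singleton 0).union (hfin.countable.biUnion ?_)).mono hcov
  rintro _ ⟨b, _, rfl⟩
  refine (countable_range (fun q : ℚ => (q : ℚ_[2]) * b)).mono ?_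
  intro a ha
  obtain ⟨q, hq⟩ := line_of_L_eq ha
  exact ⟨q, hq.symm⟩

theorem exists_irrational : ∃ b : ℚ_[2], ∀ q : ℚ, b ≠ q := by
  by_contra hn
  push Not at hn
  apply uncountable_padic
  refine (countable_range (fun q : ℚ => (q : ℚ_[2]))).mono ?_
  intro b _
  obtain ⟨q, hq⟩ := hn b
  exact ⟨q, hq.symm⟩

theorem L_inf_eq_bot {b : ℚ_[2]} (hb : ∀ q : ℚ, b ≠ q) : L 1 ⊓ L b = ⊥ := by
  rw [eq_bot_iff]
  rintro _ ⟨⟨m, hm, hq, rfl⟩, h2⟩
  change tr m hm ∈ L b at h2
  rw [tr_mem_L] at h2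
  rw [Subgroup.mem_bot, ← tr_zero]
  apply tr_congr
  funext i
  obtain ⟨q, hq⟩ := hq i
  obtain ⟨r, hr⟩ := h2 i
  by_cases hr0 : r = 0
  · rw [hr, hr0]; simp
  · exfalso
    apply hb (q / r)
    have hr0' : (r : ℚ_[2]) ≠ 0 := by exact_mod_cast hr0
    push_cast
    rw [eq_div_iff hr0', mul_comm, ← hr, hq, mul_one]

end Q16.Irr
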